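import Pool.Agent.Y640.IS.Final

/-!
# MP_a763a9_pr, Q1: a positive answer, with the limit identified as a thermodynamic potential of
the limiting random tree

Setting: a limiting random rooted tree (`T ω`, rooted at `0`, `ω` distributed as `P`), almost
surely acyclic and locally finite.  `G_n` (graph on `Fin n`, law `μ n`) ranges over ALL uniformly
sparse sequences converging locally in probability to it.

Idea of the proof.  The existence of the pressure is the earlier result `PressureExists` (its
proof compares two finite graphs with close local statistics).  Interlacing two sequences with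
the same limiting tree shows that the limits agree.  Convexity and spin flip symmetry pass to the
limit; locally uniform convergence follows from a Lipschitz bound with a tight constant.  The law of
large numbers with an exponential rate is a Chernoff bound at small shifts of
the parameters, the convergence of the Gibbs means is Jensen's inequality, and the
convergence in mean of the pressure uses that the edges at vertices of high degree are few in
mean, by uniform sparsity.
-/

set_option autoImplicit false

namespace Pool.Agent.Results.MP_a763a9_pr.UniversalPressure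

open H29I Filter Topology MeasureTheory Pool.Agent.Y640.IS

/-- For every random rooted tree there is ONE function `φ` with the following properties.
(1) On every uniformly sparse sequence of random graphs that converges locally in probability to
the tree, the pressure `(1/n) log Z` converges to `φ β k h` in probability, uniformly for
`(β, k, h)` in the compact subsets of `[0, ∞) × ℝ × ℝ`, and for each `(β, k, h)` also in mean.
(2) `φ` is jointly convex on `β ≥ 0`, and `φ β (-k) (-h) = φ β k h`.
(3) For all `β ≥ 0` and `k`, the function `φ β k` is differentiable off a countable set.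
(4) Let `(a, b, c)` be a direction (with `a = 0` if `β = 0`) in which `φ` has directional
derivative `m` at `(β, k, h)`.  Then, with probability tending to one, the Gibbs probability that
`(a Σ_{uv} σ_u σ_v + b Σ_v d_v σ_v + c Σ_v σ_v) / n` deviates from `m` by more than `ε` is at most
`2 exp(-r n)`, where `r` does not depend on the sequence, and the Gibbs mean of this quantity is
within `ε` of `m`. -/
theorem result {Ω : Type} [MeasurableSpace Ω] (P : Measure Ω) [IsProbabilityMeasure P]
    (T : Ω → SimpleGraph ℕ) (hfin : ∀ ω v, {u | (T ω).Adj v u}.Finite)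
    (hac : ∀ᵐ ω ∂P, (T ω).IsAcyclic) :
    ∃ φ : ℝ → ℝ → ℝ → ℝ,
      (∀ μ : (n : ℕ) → SimpleGraph (Fin n) → ℝ, IsLaw μ → UniformlySparse μ →
        LocalLimit μ P T →
        (∀ R ε : ℝ, 0 < ε → Tendsto (fun n => pr μ n (fun G => ∃ β k h : ℝ,
          0 ≤ β ∧ β ≤ R ∧ |k| ≤ R ∧ |h| ≤ R ∧
            ε < |Real.log (ZeIsing β k h G) / n - φ β k h|)) atTop (𝓝 0)) ∧
        ∀ β k h : ℝ, 0 ≤ β →
          Tendsto (fun n => ∑ G, μ n G * |Real.log (ZeIsing β k h G) / n - φ β k h|) atTop
            (𝓝 0)) ∧
      ConvexOn ℝ {x : ℝ × ℝ × ℝ | 0 ≤ x.1} (fun x => φ x.1 x.2.1 x.2.2) ∧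
      (∀ β k h : ℝ, 0 ≤ β → φ β (-k) (-h) = φ β k h) ∧
      (∀ β k : ℝ, 0 ≤ β → {h : ℝ | ¬ DifferentiableAt ℝ (fun s => φ β k s) h}.Countable) ∧
      ∀ β k h a b c m : ℝ, 0 ≤ β → (0 < β ∨ a = 0) →
        HasDerivAt (fun t : ℝ => φ (β + t * a) (k + t * b) (h + t * c)) m 0 →
        ∀ ε : ℝ, 0 < ε → ∃ r : ℝ, 0 < r ∧ ∀ μ : (n : ℕ) → SimpleGraph (Fin n) → ℝ,
          IsLaw μ → UniformlySparse μ → LocalLimit μ P T →
          Whp μ (fun n G => gibbs β k h G (fun σ => ε < |obs a b c G σ / n - m|) ≤
            2 * Real.exp (-(r * n)) ∧ |gmean β k h a b c G / n - m| ≤ ε) :=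
  final P T hfin hac

end Pool.Agent.Results.MP_a763a9_pr.UniversalPressure
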